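import Pool.Agent.H34.L.TH161.KS.Defs
import Pool.Agent.H34.L.TH558.KS_HEAVY

set_option autoImplicit false

open Finset Filter Topology
open scoped Classical

namespace Pool.Agent.TH558.KS_LARGE

open Pool.Agent.TH161.LW (Om)
open Pool.Agent.TH161.KS
open Pool.Agent.TH558.KS_HEAVY

theorem rho_le {α : Type} [Fintype α] [PartialOrder α] {M : ℕ} (h : Std α M) (x y : α) :
    rho M x y ≤ |hh M y - hh M x| + tau M x y := by
  have hNpos : (0 : ℝ) < (Om α M).card := by exact_mod_cast Finset.card_pos.2 h.ne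
  unfold rho tau ex
  rw [div_le_iff₀ hNpos, add_mul, div_mul_cancel₀ _ hNpos.ne']
  have h1 : ∀ f ∈ Om α M, |dd M x y f| ≤
      |hh M y - hh M x| + |dd M x y f - (hh M y - hh M x)| := by
    intro f _
    have := abs_add_le (hh M y - hh M x) (dd M x y f - (hh M y - hh M x))
    rwa [add_sub_cancel] at this
  have h2 := Finset.sum_le_sum h1
  rw [Finset.sum_add_distrib, Finset.sum_const, nsmul_eq_mul] at h2
  linarith

theorem t_LARGE : P_LARGE := by
  intro c C C' c' hFl hVi
  obtain ⟨hc0, hc1, hC, -⟩ := hFl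
  obtain ⟨hC', hc', hV⟩ := hVi
  obtain ⟨L, hL1, hL2⟩ := exists_decay C' c' hc' (1 / 16) (by norm_num) 1
  have hL0 : 0 < L := by linarith
  refine ⟨1 / (2 * L), max 8000 (max (2 * L ^ 2) (2 * L / c)), by positivity, ?_⟩
  intro α _ _ M hStd m hm x hfar hRng hH
  have hm1 : 8000 ≤ m := (le_max_left _ _).trans hm
  have hm2 : 2 * L ^ 2 ≤ m := ((le_max_left _ _).trans (le_max_right _ _)).trans hm
  have hm3 : 2 * L / c ≤ m := ((le_max_right _ _).trans (le_max_right _ _)).trans hm
  have hNpos : (0 : ℝ) < (Om α M).card := by exact_mod_cast Finset.card_pos.2 hStd.ne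
  set R : ℝ := 1 / (2 * L) * m with hRdef
  have hLR : L * R = m / 2 := by rw [hRdef]; field_simp
  have hR1 : 1 / c ≤ R := by
    rw [hRdef, div_mul_eq_mul_div, one_mul, le_div_iff₀ (by positivity)]
    calc 1 / c * (2 * L) = 2 * L / c := by ring
      _ ≤ m := hm3
  have hR2 : L ≤ R := by
    rw [hRdef, div_mul_eq_mul_div, one_mul, le_div_iff₀ (by positivity)]
    nlinarith
  have hR3 : R ≤ m / 2 := by
    rw [hRdef, div_mul_eq_mul_div, one_mul, div_le_div_iff₀ (by positivity) (by norm_num)]
    nlinarith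
  have hsep : ∀ y : α, y ≠ x → m / 2 < |hh M y - hh M x| := by
    intro y hy
    by_contra hcon
    rw [not_lt] at hcon
    have h1 := hH x y (m / 2) hR3 hcon
    have h2 := rho_le hStd x y
    have h3 := hfar y hy
    nlinarith
  set S : Finset α := univ.filter (fun y : α => L * R < |hh M y - hh M x|) with hSdef
  have hVx := hV α M hStd R hR1 hH L hL1 hR2 x
  have hmany := many_above hStd x (m / 4) m (by linarith) (by linarith) hRng
  have hfl := far_le hStd x S (m / 4) (fun z hz => by
    rw [hSdef, mem_filter, hLR] at hz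
    linarith [hz.2])
  have hcmp : ∀ f ∈ Om α M,
      ((univ.filter fun z : α => f x < f z ∧ |dd M x z f| ≤ m / 4).card : ℝ) ≤
        ((S.filter fun z : α => |dd M x z f| ≤ m / 4).card : ℝ) := by
    intro f _
    have hsub : (univ.filter fun z : α => f x < f z ∧ |dd M x z f| ≤ m / 4) ⊆
        (S.filter fun z : α => |dd M x z f| ≤ m / 4) := by
      intro z hz
      rw [mem_filter] at hz
      rw [mem_filter, hSdef, mem_filter, hLR]
      refine ⟨⟨mem_univ _, hsep z ?_⟩, hz.2.2⟩
      rintro rfl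
      exact lt_irrefl _ hz.2.1
    exact_mod_cast Finset.card_le_card hsub
  have hsum := Finset.sum_le_sum hcmp
  have h1 : (Om α M).card * ∑ z ∈ S, pr α M (fun f => |hh M z - hh M x| / 2 ≤
      |dd M x z f - (hh M z - hh M x)|) ≤ (Om α M).card * (C' * L * R * Real.exp (-(c' * L))) :=
    mul_le_mul_of_nonneg_left hVx hNpos.le
  have h2 : C' * L * R * Real.exp (-(c' * L)) ≤ m / 32 := by
    have h3 : C' * L * R * Real.exp (-(c' * L)) = (C' * L * Real.exp (-(c' * L))) * R := by ring
    rw [h3]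
    have hR0 : 0 ≤ R := by linarith
    have h4 := mul_le_mul_of_nonneg_right hL2 hR0
    linarith
  have h3 := mul_le_mul_of_nonneg_left h2 hNpos.le
  have h4 : 0 < ((Om α M).card : ℝ) * m := by positivity
  nlinarith

end Pool.Agent.TH558.KS_LARGE
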